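import Pool.Agent.Q168.BT.Coef

/-!
# Comparison of the norms of the powers of the Beurling transform

`opNorm p n` is the norm of `T ^ n` on `L ^ p` of the plane and `c n k r` is the Taylor coefficient at
`z ^ k` of `((z + r) / (1 + r z)) ^ n`.

**Theorem.** Let `p ≥ 1` and `n ≥ 1`. Then `|c n k r| ‖T ^ k‖_p ≤ ‖T ^ n‖_p` for all `k` and `0 ≤ r < 1`;
in particular `‖T ^ (n + 1)‖_p ≤ (3 / 2) √(3 (n + 1) / (2 n)) ‖T ^ n‖_p` and
`‖T ^ n‖_p ≤ (3 / 2) √(3 n / (2 (n + 1))) ‖T ^ (n + 1)‖_p`.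
-/

set_option autoImplicit false

open MeasureTheory
open scoped ENNReal

namespace Pool.Agent.Results.MP_3dd6d4_an.ConsecutivePowers

/-- The `n`-th power of the Beurling transform: the Fourier multiplier with symbol
`(conj ξ / ξ) ^ n`, in the literal form of the frozen statement. -/
noncomputable def T (n : ℕ) (f : SchwartzMap ℂ ℂ) (z : ℂ) : ℂ :=
  ∫ ξ : ℂ,
    Complex.exp (2 * (Real.pi : ℂ) * Complex.I * ((z.re * ξ.re + z.im * ξ.im : ℝ) : ℂ)) *
      ((starRingEnd ℂ ξ / ξ) ^ n *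
        ∫ w : ℂ, Complex.exp (-(2 * (Real.pi : ℂ) * Complex.I *
          ((w.re * ξ.re + w.im * ξ.im : ℝ) : ℂ))) * f w)

/-- The operator norm `‖T ^ n‖_p`: the infimum of the admissible constants for Schwartz functions. -/
noncomputable def opNorm (p : ℝ) (n : ℕ) : ℝ≥0∞ :=
  sInf {K : ℝ≥0∞ | ∀ f : SchwartzMap ℂ ℂ,
    eLpNorm (T n f) (ENNReal.ofReal p) volume ≤ K * eLpNorm (fun z : ℂ => f z) (ENNReal.ofReal p) volume}

/-- The Taylor coefficient at `z ^ k` of `((z + r) / (1 + r z)) ^ n`, written out. -/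
noncomputable def c (n k : ℕ) (r : ℝ) : ℝ :=
  ∑ i ∈ Finset.range (n + 1), if i ≤ k then
    (n.choose i : ℝ) * ((k - i + (n - 1)).choose (n - 1) : ℝ) * r ^ (n - i) * (-r) ^ (k - i) else 0

lemma cmp (p : ℝ) (hp : 1 ≤ p) (n : ℕ) (hn : 1 ≤ n) (k : ℕ) (r : ℝ) (h0 : 0 ≤ r) (h1 : r < 1) :
    ENNReal.ofReal |c n k r| * opNorm p k ≤ opNorm p n := by
  have hP : 1 ≤ ENNReal.ofReal p := by
    rw [← ENNReal.ofReal_one]; exact ENNReal.ofReal_le_ofReal hp
  unfold opNorm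
  refine le_sInf fun K hK => ?_
  rcases eq_or_ne (c n k r) 0 with h | h
  · rw [h, abs_zero, ENNReal.ofReal_zero, zero_mul]
    exact zero_le
  have hc : 0 < |c n k r| := abs_pos.2 h
  have hc0 : ENNReal.ofReal |c n k r| ≠ 0 := by
    rw [ne_eq, ENNReal.ofReal_eq_zero, not_le]; exact hc
  have hb : ∀ f : SchwartzMap ℂ ℂ, eLpNorm (Pool.Agent.TH55.PowA.T
      (fun ξ => Pool.Agent.TH55.PowA.bs ξ ^ n) f) (ENNReal.ofReal p) volume
      ≤ K * eLpNorm f (ENNReal.ofReal p) volume := fun f => hK f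
  have key : sInf {K : ℝ≥0∞ | ∀ f : SchwartzMap ℂ ℂ,
      eLpNorm (T k f) (ENNReal.ofReal p) volume ≤ K * eLpNorm (fun z : ℂ => f z) (ENNReal.ofReal p) volume}
      ≤ K / ENNReal.ofReal |c n k r| := by
    refine sInf_le fun f => ?_
    have h2 := Q168.BT.cmp_main hP ENNReal.ofReal_ne_top hn hb k r h0 h1 f
    have h3 : ‖((Q168.BT.cf n k r : ℝ) : ℂ)‖ₑ = ENNReal.ofReal |c n k r| := by
      rw [← ofReal_norm, Complex.norm_real, Real.norm_eq_abs]
      rfl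
    rw [h3] at h2
    have h4 : eLpNorm (T k f) (ENNReal.ofReal p) volume
        = eLpNorm (Pool.Agent.TH55.PowA.T (fun ξ => Pool.Agent.TH55.PowA.bs ξ ^ k) f)
          (ENNReal.ofReal p) volume := rfl
    rw [h4, ENNReal.div_eq_inv_mul, mul_assoc]
    calc _ = (ENNReal.ofReal |c n k r|)⁻¹ * (ENNReal.ofReal |c n k r| *
          eLpNorm (Pool.Agent.TH55.PowA.T (fun ξ => Pool.Agent.TH55.PowA.bs ξ ^ k) f)
          (ENNReal.ofReal p) volume) := by
            rw [← mul_assoc, ENNReal.inv_mul_cancel hc0 ENNReal.ofReal_ne_top, one_mul]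
      _ ≤ _ := by gcongr
  calc _ ≤ ENNReal.ofReal |c n k r| * (K / ENNReal.ofReal |c n k r|) := by gcongr
    _ ≤ K := ENNReal.mul_div_le

lemma from_coef {a b : ℝ≥0∞} {x y d : ℝ} (hy : 0 ≤ y) (hx : x ≤ d) (hxy : x * y = 1)
    (h : ENNReal.ofReal d * a ≤ b) : a ≤ ENNReal.ofReal y * b := by
  calc a = ENNReal.ofReal (y * x) * a := by rw [mul_comm y, hxy, ENNReal.ofReal_one, one_mul]
    _ = ENNReal.ofReal y * (ENNReal.ofReal x * a) := by rw [ENNReal.ofReal_mul hy, mul_assoc]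
    _ ≤ ENNReal.ofReal y * (ENNReal.ofReal d * a) := by gcongr
    _ ≤ ENNReal.ofReal y * b := by gcongr

/-- **Comparison of the norms of the powers.** -/
theorem result (p : ℝ) (hp : 1 ≤ p) (n : ℕ) (hn : 1 ≤ n) :
    (∀ (k : ℕ) (r : ℝ), 0 ≤ r → r < 1 → ENNReal.ofReal |c n k r| * opNorm p k ≤ opNorm p n) ∧
    opNorm p (n + 1) ≤ ENNReal.ofReal (3 / 2 * √(3 * (n + 1) / (2 * n))) * opNorm p n ∧
    opNorm p n ≤ ENNReal.ofReal (3 / 2 * √(3 * n / (2 * (n + 1)))) * opNorm p (n + 1) := by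
  refine ⟨fun k r h0 h1 => cmp p hp n hn k r h0 h1, ?_, ?_⟩
  · exact from_coef (by positivity) (Q168.BT.cf_up_bound n hn) (Q168.BT.const_up n hn)
      (cmp p hp n hn (n + 1) _ (Q168.BT.rr_nonneg n) (Q168.BT.rr_lt n hn))
  · exact from_coef (by positivity) (Q168.BT.cf_down_bound n hn) (Q168.BT.const_down n hn)
      (cmp p hp (n + 1) (by omega) n _ (Q168.BT.rr_nonneg n) (Q168.BT.rr_lt n hn))

end Pool.Agent.Results.MP_3dd6d4_an.ConsecutivePowers
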