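import Pool.Agent.Q168.BT.Sym3

/-!
# Finite rotational symmetry does not decrease the norm of the powers of the Beurling transform

`opNorm p n` is the norm of `T ^ n` on `L ^ p` of the plane, `symNorm p n m j` its norm on the smooth
functions `f` which vanish outside the unit disc and satisfy `f (ω z) = ω ^ j f z`,
`ω = e ^ (2 π i / m)`.

**Theorem.** `symNorm p n m j = opNorm p n` for all `p ≥ 2`, `n, m ≥ 1` and `j`.
-/

set_option autoImplicit false

open MeasureTheory
open scoped ENNReal

namespace Pool.Agent.Results.MP_3dd6d4_an.FiniteSymmetry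

/-- The `n`-th power of the Beurling transform: the Fourier multiplier with symbol
`(conj ξ / ξ) ^ n`, in the literal form of the frozen statement. -/
noncomputable def T (n : ℕ) (f : SchwartzMap ℂ ℂ) (z : ℂ) : ℂ :=
  ∫ ξ : ℂ,
    Complex.exp (2 * (Real.pi : ℂ) * Complex.I * ((z.re * ξ.re + z.im * ξ.im : ℝ) : ℂ)) *
      ((starRingEnd ℂ ξ / ξ) ^ n *
        ∫ w : ℂ, Complex.exp (-(2 * (Real.pi : ℂ) * Complex.I *
          ((w.re * ξ.re + w.im * ξ.im : ℝ) : ℂ))) * f w)

/-- The operator norm `‖T ^ n‖_p`: the infimum of the admissible constants for Schwartz functions. -/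
noncomputable def opNorm (p : ℝ) (n : ℕ) : ℝ≥0∞ :=
  sInf {K : ℝ≥0∞ | ∀ f : SchwartzMap ℂ ℂ,
    eLpNorm (T n f) (ENNReal.ofReal p) volume ≤ K * eLpNorm (fun z : ℂ => f z) (ENNReal.ofReal p) volume}

/-- The primitive root of unity `e ^ (2 π i / m)`. -/
noncomputable def root (m : ℕ) : ℂ := Complex.exp (2 * Real.pi * Complex.I / m)

/-- The norm of `T ^ n` on the functions of type `j` under the rotations of order `m` which vanish
outside the open unit disc: the infimum of the admissible constants for these functions. -/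
noncomputable def symNorm (p : ℝ) (n m j : ℕ) : ℝ≥0∞ :=
  sInf {K : ℝ≥0∞ | ∀ f : SchwartzMap ℂ ℂ, (∀ z : ℂ, f (root m * z) = root m ^ j * f z) →
    (∀ z : ℂ, 1 ≤ ‖z‖ → f z = 0) →
    eLpNorm (T n f) (ENNReal.ofReal p) volume ≤ K * eLpNorm (fun z : ℂ => f z) (ENNReal.ofReal p) volume}

/-- **Finite rotational symmetry and localisation do not decrease the norm.** -/
theorem result (p : ℝ) (hp : 2 ≤ p) (n m j : ℕ) (hn : 1 ≤ n) (hm : 1 ≤ m) :
    symNorm p n m j = opNorm p n := by
  refine le_antisymm ?_ ?_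
  · refine sInf_le_sInf fun K hK => ?_
    exact fun f _ _ => hK f
  · refine le_sInf fun K hK => ?_
    rcases eq_or_ne K ∞ with h | h
    · rw [h]
      exact le_top
    · refine sInf_le fun f => ?_
      have h1 : Pool.Agent.Q168.BT.BdC (ENNReal.ofReal p) n m j K := fun g h1 h2 => hK g h1 h2
      exact Pool.Agent.Q168.BT.sym_main p hp n hn (by omega) h h1 f

end Pool.Agent.Results.MP_3dd6d4_an.FiniteSymmetry
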