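import Pool.Agent.Q75.BN.Fin

set_option autoImplicit false

open MeasureTheory

namespace Pool.Agent.Results.MP_3dd6d4_an.NonCriticalModes

/-- The `n`-th power of the Beurling transform: the Fourier multiplier with symbol
`(conj ξ / ξ) ^ n`, in literal form. -/
noncomputable def T (n : ℕ) (f : ℂ → ℂ) (z : ℂ) : ℂ :=
  ∫ ξ : ℂ,
    Complex.exp (2 * (Real.pi : ℂ) * Complex.I * (((z.re * ξ.re + z.im * ξ.im : ℝ)) : ℂ)) *
      ((starRingEnd ℂ ξ / ξ) ^ n *
        ∫ x : ℂ, Complex.exp (-(2 * (Real.pi : ℂ) * Complex.I *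
          (((x.re * ξ.re + x.im * ξ.im : ℝ)) : ℂ))) * f x)

/-- For every `n ≥ 1`, every real `p ≥ 2` and every integer `k ≠ 2 n`, the inequality of the question
holds for all Schwartz functions `f` of angular mode `k`, that is,
`f (r e^{iθ}) = e^{i k θ} φ(r)`. -/
theorem result (n : ℕ) (p : ℝ) (hn : 1 ≤ n) (hp : 2 ≤ p) (k : ℤ) (hk : k ≠ 2 * (n : ℤ))
    (f : SchwartzMap ℂ ℂ) (hf : ∀ a z : ℂ, ‖a‖ = 1 → f (a * z) = a ^ k * f z) :
    eLpNorm (T n f) (ENNReal.ofReal p) (volume : Measure ℂ)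
        ≤ ENNReal.ofReal ((n : ℝ) ^ (1 - 2 / p) * (p - 1)) *
          eLpNorm f (ENNReal.ofReal p) (volume : Measure ℂ) := by
  refine (Q75.BN.allE n hn hp k hk f hf).trans ?_
  gcongr
  exact (Q75.BM.En_le_Cn n hp).trans (Y282.RB.N.main n p hn hp)

end Pool.Agent.Results.MP_3dd6d4_an.NonCriticalModes
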